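import Pool.Agent.Y817.WK.Stm

/-!
Project WK (helper115), job WK-DER: the derivation of `W n g c = 0` from a solution.
-/

set_option autoImplicit false

namespace Pool.Agent.Q139.WK.DER

open Pool.Agent.Y817.WK

variable {V ι : Type} {A : Type} [NonUnitalRing A]

/-- the word `p x_l` -/
def P (g : Gen V ι → A) (l : List V) : A := l.foldl (fun u v => u * g (.x v)) (g .p)

theorem P_nil (g : Gen V ι → A) : P g [] = g .p := rfl

theorem P_snoc (g : Gen V ι → A) (l : List V) (j : V) : P g (l ++ [j]) = P g l * g (.x j) := by
  unfold P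
  rw [List.foldl_append]
  rfl

theorem W_eq (n : V) (g : Gen V ι → A) (c : ℕ) :
    W n g c = P g (List.replicate c n) * g .z * g .q0 := by
  unfold W P
  have e : (List.replicate c (Gen.x n : Gen V ι)) = (List.replicate c n).map Gen.x := by
    rw [List.map_replicate]
  rw [e, List.foldl_map]

variable [Fintype V] [DecidableEq V] [Fintype ι] {n : V} {Q : ι → Quad V} {g : Gen V ι → A}

theorem P_e (h : Rel n Q g) (k : V) (l : List V) :
    P g l * g (.e k) = -((l.count k : ℤ) • (P g l * g .z)) := by
  induction l using List.reverseRecOn with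
  | nil => rw [P_nil, h.pe]; simp
  | append_singleton l j ih =>
    have h1 : P g l * g .z * g (.x j) = P g l * g (.x j) * g .z := by
      rw [mul_assoc, h.zx, ← mul_assoc]
    have h2 : P g (l ++ [j]) * g (.e k) = -((l.count k : ℤ) • (P g l * g (.x j) * g .z)) -
        (if j = k then P g l * g (.x k) * g .z else 0) := by
      rw [P_snoc, mul_assoc, h.xe, mul_sub, ← mul_assoc, ih, neg_mul, smul_mul_assoc, h1]
      congr 1
      by_cases hjk : j = k
      · rw [if_pos hjk, if_pos hjk, mul_assoc]
      · rw [if_neg hjk, if_neg hjk, mul_zero]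
    rw [h2, P_snoc, List.count_append]
    by_cases hjk : j = k
    · subst hjk
      rw [if_pos rfl]
      have : List.count j [j] = 1 := by simp
      rw [this]
      push_cast
      rw [add_smul, one_smul]
      abel
    · rw [if_neg hjk]
      have : List.count k [j] = 0 := by simp [hjk]
      rw [this]
      simp

theorem P_skip (h : Rel n Q g) (l l' : List V) (hn : n ∉ l') :
    P g (l ++ l') * (g .z * g .q0) = P g l * (g .z * g .q0) := by
  induction l' using List.reverseRecOn with
  | nil => rw [List.append_nil]
  | append_singleton l' i ih =>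
    have hi : i ≠ n := fun hi => hn (by simp [hi])
    have hn' : n ∉ l' := fun hn' => hn (by simp [hn'])
    rw [← List.append_assoc, P_snoc, mul_assoc, ← mul_assoc (g (.x i)), ← h.rh i hi]
    exact ih hn'

theorem P_zero (h : Rel n Q g) (l : List V)
    (hs : ∀ s, (Q s).val (fun v => (l.count v : ℤ)) = 0) : P g l * (g .z * g .q0) = 0 := by
  set y : V → ℤ := fun v => (l.count v : ℤ) with hy
  set T : ι → A := fun s => P g l * (g .z * g (.q2 s)) with hT
  have he : ∀ (k : V) (a : A), P g l * (g (.e k) * a) = -(y k • (P g l * (g .z * a))) := by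
    intro k a
    rw [← mul_assoc, P_e h k l, neg_mul, smul_mul_assoc, mul_assoc]
  -- the second relation
  have h1 : ∀ k, P g l * (g .z * g (.q1 k)) =
      -∑ s, ((Q s).B k + ∑ i, (Q s).A i k * y i) • T s := by
    intro k
    have h2 := congrArg (fun a => P g l * a) (h.r1 k)
    simp only [mul_add, mul_zero, Finset.mul_sum, mul_sub] at h2
    rw [eq_neg_iff_add_eq_zero, ← h2]
    congr 1
    refine Finset.sum_congr rfl fun s _ => ?_
    rw [mul_smul_comm, add_smul, sub_eq_add_neg, Finset.sum_smul, ← Finset.sum_neg_distrib]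
    congr 1
    refine Finset.sum_congr rfl fun i _ => ?_
    rw [mul_smul_comm, he, smul_neg, neg_neg, mul_smul]
  -- the first relation
  have h3 := congrArg (fun a => P g l * a) h.r0
  simp only [mul_add, mul_zero, Finset.mul_sum] at h3
  have h4 : ∑ k, P g l * (g (.e k) * g (.q1 k)) =
      ∑ s, (∑ k, ((Q s).B k * y k + ∑ i, (Q s).A i k * y i * y k)) • T s := by
    have e1 : ∀ k, P g l * (g (.e k) * g (.q1 k)) =
        ∑ s, ((Q s).B k * y k + ∑ i, (Q s).A i k * y i * y k) • T s := by
      intro k
      rw [he, h1, smul_neg, neg_neg, Finset.smul_sum]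
      refine Finset.sum_congr rfl fun s _ => ?_
      rw [smul_smul]
      congr 1
      rw [mul_add, Finset.mul_sum]
      congr 1
      · ring
      · refine Finset.sum_congr rfl fun i _ => ?_
        ring
    rw [Finset.sum_congr rfl fun k _ => e1 k, Finset.sum_comm]
    refine Finset.sum_congr rfl fun s _ => ?_
    rw [Finset.sum_smul]
  have h5 : ∑ s, P g l * ((Q s).d • (g .z * g (.q2 s))) = ∑ s, (Q s).d • T s := by
    refine Finset.sum_congr rfl fun s _ => ?_
    rw [mul_smul_comm]
  rw [h4, h5, add_assoc, ← Finset.sum_add_distrib] at h3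
  have h6 : (∑ s, ((∑ k, ((Q s).B k * y k + ∑ i, (Q s).A i k * y i * y k)) • T s +
      (Q s).d • T s)) = 0 := by
    refine Finset.sum_eq_zero fun s _ => ?_
    rw [← add_smul]
    have h7 : (∑ k, ((Q s).B k * y k + ∑ i, (Q s).A i k * y i * y k)) + (Q s).d =
        (Q s).val y := by
      unfold Quad.val
      rw [Finset.sum_add_distrib, Finset.sum_comm (f := fun k i => (Q s).A i k * y i * y k)]
      ring
    rw [h7, hs s, zero_smul]
  rw [h6, add_zero] at h3
  exact h3

theorem exists_list (n : V) (y : V → ℕ) : ∃ l' : List V, n ∉ l' ∧ ∀ i, i ≠ n → l'.count i = y i := by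
  set s : Multiset V := ∑ j : V, (if j = n then 0 else y j) • ({j} : Multiset V) with hs
  have hc : ∀ i, s.count i = if i = n then 0 else y i := by
    intro i
    rw [hs, Multiset.count_sum']
    simp only [Multiset.count_nsmul, Multiset.count_singleton]
    rw [Finset.sum_eq_single i]
    · simp
    · intro j _ hj
      simp [Ne.symm hj]
    · intro hi
      exact absurd (Finset.mem_univ i) hi
  have hl : ∀ i, s.toList.count i = s.count i := by
    intro i
    rw [← Multiset.coe_count, Multiset.coe_toList]
  refine ⟨s.toList, ?_, ?_⟩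
  · rw [← List.count_eq_zero, hl, hc, if_pos rfl]
  · intro i hi
    rw [hl, hc, if_neg hi]

theorem t : Pool.Agent.Y817.WK.StmDerive := by
  intro V ι _ _ _ n Q A _ g hR c hS
  obtain ⟨y, hy, hs⟩ := hS
  obtain ⟨l', hl', hc⟩ := exists_list n y
  rw [W_eq, mul_assoc, ← P_skip hR (List.replicate c n) l' hl']
  apply P_zero hR
  intro s
  have e : (fun v => ((List.replicate c n ++ l').count v : ℤ)) = fun v => (y v : ℤ) := by
    funext v
    congr 1
    rw [List.count_append, List.count_replicate]
    by_cases hv : v = n
    · subst hv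
      rw [List.count_eq_zero.2 hl', hy]
      simp
    · rw [hc v hv]
      have : (n == v) = false := by simp [Ne.symm hv]
      simp [this]
  rw [e]
  exact hs s

end Pool.Agent.Q139.WK.DER
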